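import Pool.Agent.H70.PC.NestT
import Pool.Agent.H54.PC.BoxDefs

/-!
# Plan C: nested levels (LEVNEST)

The box `B'` is inside the box `B` with `g` more digits; `z`, `z'` are near the slopes. The context
of `B'` (window `w`, frame `z'`) and the frame `z` determine, up to a bounded number of values, the
context of `B` with `X` more digits, for `X + t ≤ g`; `t` is the loss of precision of the frame `z'`.
-/

set_option autoImplicit false

namespace Pool.PC

open Finset Real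
open Pool.Agent.H49.Ent Pool.Agent.H32.Dense Pool.STK Pool.KA Pool.K2S Pool.KSAT

/-- The basis of the frame `zfr i0 z`. -/
def lev_e (i0 : Fin 2) (z : Fin 2 → ℝ) (j i : Fin 2) : ℝ :=
  if i = i0 then (if j = i0 then 1 else 0) else (if j = i0 then z i else 1)

/-- The change from the frame `zfr i0' z'` to the frame `zfr i0 z`. -/
def lev_L (i0' i0 : Fin 2) (z' z : Fin 2 → ℝ) (i j : Fin 2) : ℝ :=
  mco (zfr i0 z) (lev_e i0' z' j) i

theorem cg_lev (i0' i0 : Fin 2) (z' z : Fin 2 → ℝ) :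
    Cg (zfr i0' z') (zfr i0 z) (lev_L i0' i0 z' z) := by
  intro x i
  unfold lev_L lev_e mco zfr
  fin_cases i0 <;> fin_cases i0' <;> fin_cases i <;> simp [Fin.sum_univ_two] <;> ring

theorem oth_ne (i : Fin 2) : oth i ≠ i := by
  fin_cases i <;> simp [oth]

theorem eq_oth {i j : Fin 2} (h : j ≠ i) : j = oth i := by
  fin_cases i <;> fin_cases j <;> simp_all [oth]

section lev

variable {J : ℕ} {F : Fam 2 J} {ω : F.Ω} {B B' : Bx F} {l l' g t X : ℕ} {z z' : Fin 2 → ℝ}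
  {C₀ : ℝ}

/-- The scaled vectors of the basis are in the box. -/
theorem lev_in (hC : 1 ≤ C₀) (hl' : B'.n ≤ B'.q + l' + t)
    (hz' : |z' (oth B'.i0) - B'.a ω| ≤ C₀ / 2 ^ l') (j : Fin 2) :
    B'.In ω 1 fun i => 1 / (C₀ * 2 ^ (qcv B'.q l' B'.i0 j + t)) * lev_e B'.i0 z' j i := by
  have hC0 : 0 < C₀ := by linarith
  have hn : (2 : ℝ) ^ B'.n ≤ 2 ^ (B'.q + l' + t) := pow_le_pow_right₀ (by norm_num) hl'
  have ho := oth_ne B'.i0
  unfold Bx.In Bx.pr lev_e qcv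
  simp only [if_true, if_neg ho]
  by_cases hj : j = B'.i0
  · simp only [if_pos hj, mul_one]
    constructor
    · rw [abs_of_pos (by positivity)]
      refine one_div_le_one_div_of_le (by positivity) ?_
      calc (2 : ℝ) ^ B'.q ≤ 2 ^ (B'.q + t) := pow_le_pow_right₀ (by norm_num) (by omega)
        _ = 1 * 2 ^ (B'.q + t) := (one_mul _).symm
        _ ≤ _ := mul_le_mul_of_nonneg_right hC (by positivity)
    · have e : 1 / (C₀ * 2 ^ (B'.q + t)) * z' (oth B'.i0) -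
          B'.a ω * (1 / (C₀ * 2 ^ (B'.q + t))) =
          1 / (C₀ * 2 ^ (B'.q + t)) * (z' (oth B'.i0) - B'.a ω) := by ring
      rw [e, abs_mul, abs_of_pos (by positivity : (0 : ℝ) < 1 / (C₀ * 2 ^ (B'.q + t)))]
      calc 1 / (C₀ * 2 ^ (B'.q + t)) * |z' (oth B'.i0) - B'.a ω| ≤
            1 / (C₀ * 2 ^ (B'.q + t)) * (C₀ / 2 ^ l') :=
            mul_le_mul_of_nonneg_left hz' (by positivity)
        _ = 1 / 2 ^ (B'.q + l' + t) := by
            field_simp
            ring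
        _ ≤ 1 / 2 ^ B'.n := one_div_le_one_div_of_le (by positivity) hn
  · simp only [if_neg hj, mul_zero, sub_zero, mul_one, abs_zero]
    constructor
    · positivity
    · rw [abs_of_pos (by positivity)]
      refine one_div_le_one_div_of_le (by positivity) (hn.trans ?_)
      calc (2 : ℝ) ^ (B'.q + l' + t) = 1 * 2 ^ (B'.q + l' + t) := (one_mul _).symm
        _ ≤ _ := mul_le_mul_of_nonneg_right hC (by positivity)

/-- The bounds of the change of the frame. -/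
theorem lev_bd (hC : 1 ≤ C₀) (hl : B.q + l ≤ B.n) (hl' : B'.n ≤ B'.q + l' + t) (hg : X + t ≤ g)
    (hz : |z (oth B.i0) - B.a ω| ≤ C₀ / 2 ^ l)
    (hz' : |z' (oth B'.i0) - B'.a ω| ≤ C₀ / 2 ^ l')
    (hsub : ∀ v : Fin 2 → ℝ, B'.In ω 1 v → (B.sh g).In ω 1 v) (i j : Fin 2) {r : ℕ}
    (hr : r ≤ qcv (B.q + X) l B.i0 i) (hrJ : r + t ≤ J) :
    |lev_L B'.i0 B.i0 z' z i j| ≤ 2 * (1 + C₀) ^ 2 * 2 ^ (qcv B'.q l' B'.i0 j) / 2 ^ r := by
  have hC0 : 0 < C₀ := by linarith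
  obtain ⟨c, hc⟩ : ∃ c, c = qcv B'.q l' B'.i0 j := ⟨_, rfl⟩
  obtain ⟨s, hs⟩ : ∃ s, s = C₀ * (2 : ℝ) ^ (c + t) := ⟨_, rfl⟩
  have hs0 : 0 < s := by rw [hs]; positivity
  have key := hsub _ (lev_in (ω := ω) (z' := z') hC hl' hz' j)
  rw [← hc, ← hs] at key
  obtain ⟨e, he⟩ : ∃ e, e = lev_e B'.i0 z' j := ⟨_, rfl⟩
  rw [← he] at key
  unfold Bx.In Bx.pr Bx.sh at key
  simp only at key
  obtain ⟨k1, k2⟩ := key
  have m1 : |e B.i0| ≤ s / 2 ^ min (B.q + g) J := by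
    rw [abs_mul, abs_of_pos (by positivity : (0 : ℝ) < 1 / s)] at k1
    have := mul_le_mul_of_nonneg_left k1 hs0.le
    calc |e B.i0| = s * (1 / s * |e B.i0|) := by field_simp
      _ ≤ s * (1 / 2 ^ min (B.q + g) J) := this
      _ = _ := by ring
  have m2 : |e (oth B.i0) - B.a ω * e B.i0| ≤ s / 2 ^ min (B.n + g) J := by
    have e1 : 1 / s * e (oth B.i0) - B.a ω * (1 / s * e B.i0) =
        1 / s * (e (oth B.i0) - B.a ω * e B.i0) := by ring
    rw [e1, abs_mul, abs_of_pos (by positivity : (0 : ℝ) < 1 / s)] at k2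
    have := mul_le_mul_of_nonneg_left k2 hs0.le
    calc |e (oth B.i0) - B.a ω * e B.i0| = s * (1 / s * |e (oth B.i0) - B.a ω * e B.i0|) := by
          field_simp
      _ ≤ s * (1 / 2 ^ min (B.n + g) J) := this
      _ = _ := by ring
  have hcc : C₀ ≤ 2 * (1 + C₀) ^ 2 := by nlinarith
  have hcc2 : C₀ + C₀ * C₀ ≤ 2 * (1 + C₀) ^ 2 := by nlinarith
  have sc : ∀ (a : ℕ), r + t ≤ a → s / (2 : ℝ) ^ a ≤ C₀ * 2 ^ c / 2 ^ r := by
    intro a ha
    rw [hs, div_le_div_iff₀ (by positivity) (by positivity), pow_add]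
    have : (2 : ℝ) ^ (r + t) ≤ 2 ^ a := pow_le_pow_right₀ (by norm_num) ha
    calc C₀ * (2 ^ c * 2 ^ t) * 2 ^ r = C₀ * 2 ^ c * 2 ^ (r + t) := by
          rw [pow_add]
          ring
      _ ≤ C₀ * 2 ^ c * 2 ^ a := mul_le_mul_of_nonneg_left this (by positivity)
  rw [← hc]
  unfold lev_L
  rw [← he]
  unfold qcv at hr
  by_cases hi : i = B.i0
  · rw [if_pos hi] at hr
    rw [hi, zfr_i0]
    calc |e B.i0| ≤ s / 2 ^ min (B.q + g) J := m1
      _ ≤ C₀ * 2 ^ c / 2 ^ r := sc _ (le_min (by omega) hrJ)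
      _ ≤ _ := by
          refine div_le_div_of_nonneg_right ?_ (by positivity)
          exact mul_le_mul_of_nonneg_right hcc (by positivity)
  · rw [if_neg hi] at hr
    rw [zfr_ne hi, eq_oth hi]
    have e1 : e (oth B.i0) - z (oth B.i0) * e B.i0 =
        (e (oth B.i0) - B.a ω * e B.i0) - (z (oth B.i0) - B.a ω) * e B.i0 := by ring
    have m3 : |e (oth B.i0) - z (oth B.i0) * e B.i0| ≤
        |e (oth B.i0) - B.a ω * e B.i0| + |z (oth B.i0) - B.a ω| * |e B.i0| := by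
      rw [e1, ← abs_mul]
      exact abs_sub _ _
    have m4 : |z (oth B.i0) - B.a ω| * |e B.i0| ≤ C₀ * (C₀ * 2 ^ c / 2 ^ r) := by
      calc |z (oth B.i0) - B.a ω| * |e B.i0| ≤ C₀ / 2 ^ l * (s / 2 ^ min (B.q + g) J) :=
            mul_le_mul hz m1 (abs_nonneg _) (by positivity)
        _ = C₀ * (s / 2 ^ (l + min (B.q + g) J)) := by
            rw [pow_add]
            field_simp
        _ ≤ _ := mul_le_mul_of_nonneg_left (sc _ (by
            rcases min_choice (B.q + g) J with h | h <;> rw [h] <;> omega)) hC0.le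
    have m5 : |e (oth B.i0) - B.a ω * e B.i0| ≤ C₀ * 2 ^ c / 2 ^ r :=
      m2.trans (sc _ (le_min (by omega) hrJ))
    calc |e (oth B.i0) - z (oth B.i0) * e B.i0| ≤ (C₀ + C₀ * C₀) * 2 ^ c / 2 ^ r := by
          have : (C₀ + C₀ * C₀) * 2 ^ c / 2 ^ r = C₀ * 2 ^ c / 2 ^ r +
            C₀ * (C₀ * 2 ^ c / 2 ^ r) := by ring
          linarith
      _ ≤ _ := by
          refine div_le_div_of_nonneg_right ?_ (by positivity)
          exact mul_le_mul_of_nonneg_right hcc2 (by positivity)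

/-- The change of the frame is bounded. -/
theorem lev_bd1 (hC : 1 ≤ C₀) (ha : |B.a ω| ≤ 1) (ha' : |B'.a ω| ≤ 1)
    (hz : |z (oth B.i0) - B.a ω| ≤ C₀ / 2 ^ l)
    (hz' : |z' (oth B'.i0) - B'.a ω| ≤ C₀ / 2 ^ l') (i j : Fin 2) :
    |lev_L B'.i0 B.i0 z' z i j| ≤ 2 * (1 + C₀) ^ 2 := by
  have hC0 : 0 < C₀ := by linarith
  have q : ∀ n : ℕ, C₀ / (2 : ℝ) ^ n ≤ C₀ := fun n =>
    div_le_self hC0.le (one_le_pow₀ (by norm_num))
  have hz1 : |z (oth B.i0)| ≤ 1 + C₀ := by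
    have h1 := q l
    have h2 : z (oth B.i0) = (z (oth B.i0) - B.a ω) + B.a ω := by ring
    rw [h2]
    refine (abs_add_le _ _).trans ?_
    linarith
  have hz1' : |z' (oth B'.i0)| ≤ 1 + C₀ := by
    have h1 := q l'
    have h2 : z' (oth B'.i0) = (z' (oth B'.i0) - B'.a ω) + B'.a ω := by ring
    rw [h2]
    refine (abs_add_le _ _).trans ?_
    linarith
  have he : ∀ k, |lev_e B'.i0 z' j k| ≤ 1 + C₀ := by
    intro k
    unfold lev_e
    by_cases hk : k = B'.i0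
    · rw [if_pos hk]
      split_ifs
      · rw [abs_one]
        linarith
      · rw [abs_zero]
        linarith
    · rw [if_neg hk]
      split_ifs
      · rw [eq_oth hk]
        exact hz1'
      · rw [abs_one]
        linarith
  unfold lev_L
  by_cases hi : i = B.i0
  · rw [hi, zfr_i0]
    refine (he _).trans ?_
    nlinarith
  · rw [zfr_ne hi, eq_oth hi]
    refine (abs_sub _ _).trans ?_
    rw [abs_mul]
    have h1 : |z (oth B.i0)| * |lev_e B'.i0 z' j B.i0| ≤ (1 + C₀) * (1 + C₀) :=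
      mul_le_mul hz1 (he _) (abs_nonneg _) (by linarith)
    have h2 := he (oth B.i0)
    nlinarith

end lev

/-- **LEVNEST.** `W` determines the context of the inner box and the frame `z` of the outer box.
Then it determines the context of the outer box with `X` more digits, up to a bounded number of
values. -/
theorem lev_nest {J : ℕ} {F : Fam 2 J} {p : F.Ω → ℝ} {S : Type} (hp : IsLaw p) {B B' : Bx F}
    {w l l' g t X : ℕ} {z z' : F.Ω → Fin 2 → ℝ} {C₀ : ℝ} (hw : w ≤ J) (hC : 1 ≤ C₀)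
    (hl : B.q + l ≤ B.n) (hl' : B'.n ≤ B'.q + l' + t) (hg : X + t ≤ g)
    (hJ : B.q + X + l + t ≤ J)
    (ha : ∀ ω, 0 < p ω → |B.a ω| ≤ 1 ∧ |B'.a ω| ≤ 1)
    (hz : ∀ ω, 0 < p ω → |z ω (oth B.i0) - B.a ω| ≤ C₀ / 2 ^ l ∧
      |z' ω (oth B'.i0) - B'.a ω| ≤ C₀ / 2 ^ l')
    (hsub : ∀ ω, 0 < p ω → ∀ v : Fin 2 → ℝ, B'.In ω 1 v → (B.sh g).In ω 1 v)
    (W : F.Ω → S) (hW : ∀ ω ω', 0 < p ω → 0 < p ω' → W ω = W ω' →
      F.ctt w B'.q l' B'.i0 z' ω = F.ctt w B'.q l' B'.i0 z' ω' ∧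
        z ω (oth B.i0) = z ω' (oth B.i0)) :
    CH p (F.ctt w (B.q + X) l B.i0 z) W ≤
      2 * (2 * Real.log (4 * 2 * (2 * (1 + C₀) ^ 2) + 3)) := by
  have hD : (0 : ℝ) ≤ 2 * (1 + C₀) ^ 2 := by positivity
  have key := Box.CH_mlb (F := F) (p := p) hp (g := w) (g' := w)
    (k := fun i => min (qcv B'.q l' B'.i0 i + w) J)
    (c := qcv B'.q l' B'.i0) (k' := fun i => min (qcv (B.q + X) l B.i0 i + w) J)
    (c' := qcv (B.q + X) l B.i0)
    (kk := fun i => min (qcv B'.q l' B'.i0 i + w) J) (M := fun ω => zfr B'.i0 (z' ω))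
    (M' := fun ω => zfr B.i0 (z ω)) (D := 2 * (1 + C₀) ^ 2) hw hw hD (fun i => le_rfl)
    (fun i => by rw [min_self]; exact min_le_left _ _) ?_ W ?_
  · have e : (2 : ℝ) = ((2 : ℕ) : ℝ) := by norm_num
    push_cast at key
    exact key
  · intro ω hω
    have hq : ∀ i, qcv (B.q + X) l B.i0 i + t ≤ J := by
      intro i
      unfold qcv
      split_ifs <;> omega
    have b1 : ∀ i j, |lev_L B'.i0 B.i0 (z' ω) (z ω) i j| ≤
        2 * (1 + C₀) ^ 2 * 2 ^ (qcv B'.q l' B'.i0 j) / 2 ^ (qcv (B.q + X) l B.i0 i) :=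
      fun i j => lev_bd hC hl hl' hg (hz ω hω).1 (hz ω hω).2 (hsub ω hω) i j le_rfl (hq i)
    have b2 : ∀ i j, |lev_L B'.i0 B.i0 (z' ω) (z ω) i j| ≤ 2 * (1 + C₀) ^ 2 :=
      fun i j => lev_bd1 hC (ha ω hω).1 (ha ω hω).2 (hz ω hω).1 (hz ω hω).2 i j
    refine ⟨lev_L B'.i0 B.i0 (z' ω) (z ω), cg_lev _ _ _ _, fun i j => ?_, b1⟩
    show |lev_L B'.i0 B.i0 (z' ω) (z ω) i j| ≤ 2 * (1 + C₀) ^ 2 *
      2 ^ min (qcv B'.q l' B'.i0 j + w) J / 2 ^ min (qcv (B.q + X) l B.i0 i + w) J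
    rcases le_total (qcv B'.q l' B'.i0 j + w) J with h | h
    · rw [min_eq_left h]
      refine (b1 i j).trans ?_
      rw [div_le_div_iff₀ (by positivity) (by positivity)]
      obtain ⟨a, ha'⟩ : ∃ a, a = qcv B'.q l' B'.i0 j := ⟨_, rfl⟩
      obtain ⟨b, hb'⟩ : ∃ b, b = qcv (B.q + X) l B.i0 i := ⟨_, rfl⟩
      rw [← ha', ← hb']
      have h5 : (2 : ℝ) ^ (a + min (b + w) J) ≤ 2 ^ (a + w + b) :=
        pow_le_pow_right₀ (by norm_num) (by
          have := min_le_left (b + w) J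
          omega)
      have h6 := mul_le_mul_of_nonneg_left h5 hD
      calc 2 * (1 + C₀) ^ 2 * 2 ^ a * 2 ^ min (b + w) J =
            2 * (1 + C₀) ^ 2 * 2 ^ (a + min (b + w) J) := by
            rw [pow_add]
            ring
        _ ≤ _ := h6
        _ = _ := by
            rw [pow_add (2 : ℝ) (a + w) b]
            ring
    · rw [min_eq_right h]
      refine (b2 i j).trans ?_
      rw [le_div_iff₀ (by positivity)]
      refine mul_le_mul_of_nonneg_left (pow_le_pow_right₀ (by norm_num) (min_le_right _ _)) hD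
  · intro ω ω' hω hω' h
    obtain ⟨c1, c2⟩ := hW ω ω' hω hω' h
    refine ⟨c1, (ctt_ext c1).1, zfr_mk fun i hi => ?_⟩
    rw [eq_oth hi]
    exact c2

end Pool.PC
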