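import Pool.Agent.H12.PC.Lev
import Pool.Agent.H92.PC.Line

/-!
# Plan C: nested levels, for the contexts `ctx`

The contexts `F.ctt w q l i0 z` and `ctx F q i0 w l z` carry the same information, if
`q + w ≤ J` and `z i0 = 0`.
-/

set_option autoImplicit false

namespace Pool.PC

open Finset Real
open Pool.Agent.H49.Ent Pool.Agent.H32.Dense Pool.STK Pool.KA Pool.K2S Pool.KSAT

section brx

variable {m J : ℕ} {F : Fam m J} {p : F.Ω → ℝ} {w q l : ℕ} {i0 : Fin m} {z : F.Ω → Fin m → ℝ}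
  {ω ω' : F.Ω}

/-- The context `ctx` determines the context `ctt`. -/
theorem ctt_of_ctx (h : ctx F q i0 w l z ω = ctx F q i0 w l z ω') :
    F.ctt w q l i0 z ω = F.ctt w q l i0 z ω' := by
  obtain ⟨h1, h2, h3, h4, h5⟩ := tlb_ext h
  refine Box.mlb_mk (M := fun ω => zfr i0 (z ω)) h1 (by rw [h2]) ?_ ?_ h5
  · funext i
    show ⌊(2 : ℝ) ^ min (qcv q l i0 i + w) J * mco (zfr i0 (z ω)) (F.x1 w ω) i⌋ =
      ⌊(2 : ℝ) ^ min (qcv q l i0 i + w) J * mco (zfr i0 (z ω')) (F.x1 w ω') i⌋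
    have h6 := congrFun h3 i
    unfold pps at h6
    unfold qcv
    by_cases hi : i = i0
    · rw [if_pos hi, if_pos hi] at h6
      rw [if_pos hi, hi, zfr_i0, zfr_i0]
      exact floor_down (min_le_left _ _) h6
    · rw [if_neg hi, if_neg hi] at h6
      rw [if_neg hi, zfr_ne hi, zfr_ne hi, show q + l + w = q + w + l by omega]
      exact h6
  · funext i
    show ⌊(2 : ℝ) ^ (qcv q l i0 i) * mco (zfr i0 (z ω)) (F.d ω) i⌋ =
      ⌊(2 : ℝ) ^ (qcv q l i0 i) * mco (zfr i0 (z ω')) (F.d ω') i⌋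
    have h6 : ⌊(2 : ℝ) ^ q * pco l i0 (z ω) (F.d ω) i⌋ =
      ⌊(2 : ℝ) ^ q * pco l i0 (z ω') (F.d ω') i⌋ := congrFun h4 i
    unfold pco at h6
    unfold qcv
    by_cases hi : i = i0
    · rw [if_pos hi, if_pos hi] at h6
      rw [if_pos hi, hi, zfr_i0, zfr_i0]
      exact h6
    · rw [if_neg hi, if_neg hi, ← mul_assoc, ← mul_assoc, ← pow_add] at h6
      rw [if_neg hi, zfr_ne hi, zfr_ne hi]
      exact h6

/-- The context `ctt` determines the context `ctx`. -/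
theorem ctx_of_ctt (hw : q + w ≤ J) (h0 : z ω i0 = z ω' i0)
    (h : F.ctt w q l i0 z ω = F.ctt w q l i0 z ω') :
    ctx F q i0 w l z ω = ctx F q i0 w l z ω' := by
  obtain ⟨a1, a2, a3, a4, a5⟩ := Box.mlb_ext (show F.mlb w (fun i => min (qcv q l i0 i + w) J)
    (qcv q l i0) (fun ω => zfr i0 (z ω)) ω = F.mlb w (fun i => min (qcv q l i0 i + w) J)
    (qcv q l i0) (fun ω => zfr i0 (z ω)) ω' from h)
  have hz : z ω = z ω' := by
    funext i
    by_cases hi : i = i0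
    · rw [hi]
      exact h0
    · exact zfr_eq a2 hi
  refine tlb_mk a1 hz ?_ ?_ a5
  · funext i
    have h6 : ⌊(2 : ℝ) ^ min (qcv q l i0 i + w) J * mco (zfr i0 (z ω)) (F.x1 w ω) i⌋ =
      ⌊(2 : ℝ) ^ min (qcv q l i0 i + w) J * mco (zfr i0 (z ω')) (F.x1 w ω') i⌋ :=
      congrFun a3 i
    unfold pps
    unfold qcv at h6
    by_cases hi : i = i0
    · rw [if_pos hi, if_pos hi]
      rw [if_pos hi, hi, zfr_i0, zfr_i0, min_eq_left hw] at h6
      exact h6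
    · rw [if_neg hi, if_neg hi]
      rw [if_neg hi, zfr_ne hi, zfr_ne hi, show q + l + w = q + w + l by omega] at h6
      exact h6
  · funext i
    show ⌊(2 : ℝ) ^ q * pco l i0 (z ω) (F.d ω) i⌋ = ⌊(2 : ℝ) ^ q * pco l i0 (z ω') (F.d ω') i⌋
    have h6 : ⌊(2 : ℝ) ^ (qcv q l i0 i) * mco (zfr i0 (z ω)) (F.d ω) i⌋ =
      ⌊(2 : ℝ) ^ (qcv q l i0 i) * mco (zfr i0 (z ω')) (F.d ω') i⌋ := congrFun a4 i
    unfold pco
    unfold qcv at h6
    by_cases hi : i = i0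
    · rw [if_pos hi, if_pos hi]
      rw [if_pos hi, hi, zfr_i0, zfr_i0] at h6
      exact h6
    · rw [if_neg hi, if_neg hi, ← mul_assoc, ← mul_assoc, ← pow_add]
      rw [if_neg hi, zfr_ne hi, zfr_ne hi] at h6
      exact h6

/-- The entropies of the two contexts, given a variable which determines `z i0`. -/
theorem CH_ctx_le {S : Type} (hp : IsLaw p) (hw : q + w ≤ J) (W : F.Ω → S)
    (h0 : ∀ ω ω', 0 < p ω → 0 < p ω' → W ω = W ω' → z ω i0 = z ω' i0) :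
    CH p (ctx F q i0 w l z) W ≤ CH p (F.ctt w q l i0 z) W := by
  refine CH_mono_left hp.nonneg fun ω ω' hω hω' h => ?_
  have h1 := Prod.ext_iff.mp h
  exact ctx_of_ctt hw (h0 ω ω' hω hω' h1.2) h1.1

end brx

/-- The constant of LEVNEST. -/
noncomputable def levc (C₀ : ℝ) : ℝ := 2 * (2 * Real.log (4 * 2 * (2 * (1 + C₀) ^ 2) + 3))

theorem levc_nonneg (C₀ : ℝ) : 0 ≤ levc C₀ := by
  unfold levc
  have : 0 ≤ Real.log (4 * 2 * (2 * (1 + C₀) ^ 2) + 3) :=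
    Real.log_nonneg (by nlinarith [sq_nonneg (1 + C₀)])
  positivity

/-- **LEVNEST for the contexts `ctx`.** `W` determines the context of the inner box (window `w`) and
the frame `z` of the outer box. Then it determines the block of the outer box, `X` more digits, up
to a bounded number of values, if `X + t ≤ g`. -/
theorem lev_nest_ctx {J : ℕ} {F : Fam 2 J} {p : F.Ω → ℝ} {S : Type} (hp : IsLaw p) {B B' : Bx F}
    {w l l' g t X : ℕ} {z z' : F.Ω → Fin 2 → ℝ} {C₀ : ℝ} (hC : 1 ≤ C₀)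
    (hl : B.q + l ≤ B.n) (hl' : B'.n ≤ B'.q + l' + t) (hg : X + t ≤ g)
    (hJ : B.q + X + l + t ≤ J) (hw : B.q + X + w ≤ J)
    (ha : ∀ ω, 0 < p ω → |B.a ω| ≤ 1 ∧ |B'.a ω| ≤ 1)
    (hz : ∀ ω, 0 < p ω → |z ω (oth B.i0) - B.a ω| ≤ C₀ / 2 ^ l ∧
      |z' ω (oth B'.i0) - B'.a ω| ≤ C₀ / 2 ^ l')
    (hz0 : ∀ ω, z ω B.i0 = 0)
    (hsub : ∀ ω, 0 < p ω → ∀ v : Fin 2 → ℝ, B'.In ω 1 v → (B.sh g).In ω 1 v)
    (W : F.Ω → S) (hW : ∀ ω ω', 0 < p ω → 0 < p ω' → W ω = W ω' →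
      ctx F B'.q B'.i0 w l' z' ω = ctx F B'.q B'.i0 w l' z' ω' ∧
        z ω (oth B.i0) = z ω' (oth B.i0)) :
    CH p (ctx F (B.q + X) B.i0 w l z) W ≤ levc C₀ := by
  refine (CH_ctx_le hp hw W fun ω ω' _ _ _ => by rw [hz0, hz0]).trans ?_
  exact lev_nest hp (by omega) hC hl hl' hg hJ ha hz hsub W fun ω ω' hω hω' h =>
    ⟨ctt_of_ctx (hW ω ω' hω hω' h).1, (hW ω ω' hω hω' h).2⟩

/-- **LEVNEST** with two boxes `B'.Sub (B.sh g)` on the event `A`, law `F.p`, everything in `A`. -/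
theorem lev_nest_sub {J : ℕ} {F : Fam 2 J} {S : Type} {A : F.Ω → Prop} (hA : ∀ ω, 0 < F.p ω → A ω)
    {B B' : Bx F} {w l l' g t X : ℕ} {z z' : F.Ω → Fin 2 → ℝ} {C₀ : ℝ} (hC : 1 ≤ C₀)
    (hB : B.Ok A) (hB' : B'.Ok A) (hsub : B'.Sub (B.sh g) A)
    (hl : B.q + l ≤ B.n) (hl' : B'.n ≤ B'.q + l' + t) (hg : X + t ≤ g)
    (hJ : B.q + X + l + t ≤ J) (hw : B.q + X + w ≤ J)
    (hz : ∀ ω, 0 < F.p ω → |z ω (oth B.i0) - B.a ω| ≤ C₀ / 2 ^ l ∧
      |z' ω (oth B'.i0) - B'.a ω| ≤ C₀ / 2 ^ l')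
    (hz0 : ∀ ω, z ω B.i0 = 0)
    (W : F.Ω → S) (hW : Det F.p W (ctx F B.q B.i0 w l z))
    (hW' : Det F.p W (ctx F B'.q B'.i0 w l' z')) :
    CH F.p (ctx F (B.q + X) B.i0 w l z) W ≤ levc C₀ :=
  lev_nest_ctx F.isLaw hC hl hl' hg hJ hw
    (fun ω hω => ⟨hB.sl ω ⟨hω, hA ω hω⟩, hB'.sl ω ⟨hω, hA ω hω⟩⟩) hz hz0
    (fun ω hω v hv => hsub ω ⟨hω, hA ω hω⟩ v hv) W fun ω ω' hω hω' h =>
    ⟨hW' ω ω' hω hω' h, congrFun (tlb_ext (hW ω ω' hω hω' h)).2.1 _⟩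

/-- **Consumption of LEVNEST (choice of the level).** One step of the telescope: `c'` is the
cumulative context with the next level; then the information of the block `L` about the digits `R`
of the time, given `c`, is at most the drop of the entropy of `R`, up to a constant. -/
theorem lev_mi {Ω S S' T R : Type} [Fintype Ω] {p : Ω → ℝ} (hp : ∀ ω, 0 ≤ p ω) (L : Ω → T)
    (U : Ω → R) (c : Ω → S) (c' : Ω → S') {C : ℝ} (hc : Det p c' c) (hL : CH p L c' ≤ C) :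
    CH p U c - CH p U (fun ω => (L ω, c ω)) ≤ CH p U c - CH p U c' + C := by
  have h1 : CH p U (fun ω => (L ω, c' ω)) ≤ CH p U (fun ω => (L ω, c ω)) :=
    CH_mono_cond hp fun ω ω' hω hω' h => by
      have h2 := Prod.ext_iff.mp h
      exact Prod.ext h2.1 (hc ω ω' hω hω' h2.2)
  have h3 := CH_le_add hp U L c'
  linarith

end Pool.PC
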